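import Mathlib

set_option autoImplicit false

namespace Pool.Agent.Results.MP_e65cda_an.LynessPeriodic

/-- `p` is the least positive period of `α`: it is a period (`α (n + p) = α n` for all `n`) and
every positive period is at least `p`. -/
def HasLeastPeriod (α : ℕ → ℝ) (p : ℕ) : Prop :=
  0 < p ∧ (∀ n, α (n + p) = α n) ∧ ∀ q, 0 < q → (∀ n, α (n + q) = α n) → p ≤ q

/-- `x` is a positive solution of `x_{n+1} = (α_n + x_n) / x_{n-1}`, `n ≥ 0`. The indices are
shifted by one: `x k` stands for `x_{k-1}`, so `x 0 = x_{-1}` and `x 1 = x_0` are the positive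
initial values. -/
def IsPositiveSolution (α : ℕ → ℝ) (x : ℕ → ℝ) : Prop :=
  0 < x 0 ∧ 0 < x 1 ∧ ∀ n, x (n + 2) = (α n + x (n + 1)) / x n

/-- `p` is good: for every nonnegative coefficient sequence with least period `p`, all positive
solutions are bounded. -/
def Good (p : ℕ) : Prop :=
  ∀ α : ℕ → ℝ, (∀ n, 0 ≤ α n) → HasLeastPeriod α p →
    ∀ x : ℕ → ℝ, IsPositiveSolution α x → ∃ M : ℝ, ∀ n, x n ≤ M

/-! ### The state map -/

/-- One step of the recursion on pairs of consecutive values. -/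
noncomputable def step (a : ℝ) (s : ℝ × ℝ) : ℝ × ℝ := (s.2, (a + s.2) / s.1)

/-- Applying the coefficients of a list one after the other. -/
noncomputable def run (L : List ℝ) (s : ℝ × ℝ) : ℝ × ℝ := L.foldl (fun s a => step a s) s

theorem run_append (L L' : List ℝ) (s : ℝ × ℝ) : run (L ++ L') s = run L' (run L s) := by
  simp [run, List.foldl_append]

theorem run_cons (a : ℝ) (L : List ℝ) (s : ℝ × ℝ) : run (a :: L) s = run L (step a s) := by
  simp [run]

theorem run_nil (s : ℝ × ℝ) : run [] s = s := rfl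

theorem step_pos {a : ℝ} (ha : 0 ≤ a) {s : ℝ × ℝ} (hs : 0 < s.1 ∧ 0 < s.2) :
    0 < (step a s).1 ∧ 0 < (step a s).2 := by
  refine ⟨hs.2, ?_⟩
  show 0 < (a + s.2) / s.1
  exact div_pos (by linarith [hs.2]) hs.1

theorem run_pos : ∀ (L : List ℝ), (∀ a ∈ L, 0 ≤ a) → ∀ {s : ℝ × ℝ}, 0 < s.1 ∧ 0 < s.2 →
    0 < (run L s).1 ∧ 0 < (run L s).2
  | [], _, s, hs => hs
  | a :: L, h, s, hs => by
      rw [run_cons]
      exact run_pos L (fun b hb => h b (List.mem_cons_of_mem _ hb))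
        (step_pos (h a List.mem_cons_self) hs)

/-- Six zero coefficients give the identity map. -/
theorem run_zero6 {s : ℝ × ℝ} (hs : 0 < s.1 ∧ 0 < s.2) : run [0, 0, 0, 0, 0, 0] s = s := by
  obtain ⟨u, v⟩ := s
  obtain ⟨hu, hv⟩ := hs
  simp only at hu hv
  simp only [run_cons, run_nil, step, zero_add]
  have e1 : v / u / v = 1 / u := by field_simp
  have e2 : 1 / u / (v / u) = 1 / v := by field_simp
  have e3 : 1 / v / (1 / u) = u / v := by field_simp
  have e4 : u / v / (1 / v) = u := by field_simp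
  have e5 : u / (u / v) = v := by field_simp
  rw [e1, e2, e3, e4, e5]

theorem run_zeros (k : ℕ) {s : ℝ × ℝ} (hs : 0 < s.1 ∧ 0 < s.2) :
    run (List.replicate (6 * k) 0) s = s := by
  induction k with
  | zero => rfl
  | succ k ih =>
    have : List.replicate (6 * (k + 1)) (0 : ℝ) = List.replicate (6 * k) 0 ++ [0, 0, 0, 0, 0, 0] := by
      rw [show 6 * (k + 1) = 6 * k + 6 by ring, List.replicate_add]
      rfl
    rw [this, run_append, ih, run_zero6 hs]

/-! ### From lists to coefficient sequences -/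

/-- The periodic coefficient sequence attached to a list. -/
def coef (L : List ℝ) (n : ℕ) : ℝ := L.getD (n % L.length) 0

/-- The orbit of pairs. -/
noncomputable def orb (α : ℕ → ℝ) (s : ℝ × ℝ) : ℕ → ℝ × ℝ
  | 0 => s
  | n + 1 => step (α n) (orb α s n)

theorem orb_add (α : ℕ → ℝ) (s : ℝ × ℝ) : ∀ (L : List ℝ) (n : ℕ),
    (∀ i (h : i < L.length), α (n + i) = L[i]) → orb α s (n + L.length) = run L (orb α s n)
  | [], n, _ => rfl
  | a :: L, n, h => by
      rw [run_cons]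
      have h0 : α n = a := h 0 (by simp)
      have := orb_add α s L (n + 1) (fun i hi => by
        have := h (i + 1) (by simpa using hi)
        rw [show n + 1 + i = n + (i + 1) by ring]
        simpa using this)
      rw [List.length_cons, show n + (L.length + 1) = n + 1 + L.length by ring, this]
      show run L (step (α n) (orb α s n)) = _
      rw [h0]

theorem coef_mul_add (L : List ℝ) (k i : ℕ) (h : i < L.length) :
    coef L (L.length * k + i) = L[i] := by
  unfold coef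
  rw [Nat.mul_add_mod, Nat.mod_eq_of_lt h, List.getD_eq_getElem _ _ h]

theorem orb_mul (L : List ℝ) (s : ℝ × ℝ) (k : ℕ) :
    orb (coef L) s (L.length * (k + 1)) = run L (orb (coef L) s (L.length * k)) := by
  rw [Nat.mul_succ]
  exact orb_add _ _ L _ (fun i hi => coef_mul_add L k i hi)

theorem orb_iter (L : List ℝ) (s : ℝ × ℝ) (m j : ℕ) :
    orb (coef L) s (L.length * (m * (j + 1))) =
      (run L)^[m] (orb (coef L) s (L.length * (m * j))) := by
  have : ∀ i, orb (coef L) s (L.length * (m * j + i)) =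
      (run L)^[i] (orb (coef L) s (L.length * (m * j))) := by
    intro i
    induction i with
    | zero => rfl
    | succ i ih => rw [← add_assoc, orb_mul, ih, Function.iterate_succ_apply']
  rw [← this, Nat.mul_succ]

theorem coef_nonneg (L : List ℝ) (h : ∀ a ∈ L, 0 ≤ a) (n : ℕ) : 0 ≤ coef L n := by
  unfold coef
  by_cases hn : n % L.length < L.length
  · rw [List.getD_eq_getElem _ _ hn]
    exact h _ (List.getElem_mem hn)
  · rw [List.getD_eq_default _ _ (by omega)]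

theorem coef_period (L : List ℝ) (n : ℕ) : coef L (n + L.length) = coef L n := by
  unfold coef
  rw [Nat.add_mod_right]

/-- If the first coefficient of the list occurs nowhere else, the least period is the length. -/
theorem coef_least (a : ℝ) (L : List ℝ) (h : ∀ b ∈ L, b ≠ a) :
    HasLeastPeriod (coef (a :: L)) (a :: L).length := by
  refine ⟨by simp, coef_period _, ?_⟩
  intro q hq hper
  by_contra hlt
  push Not at hlt
  have h0 : coef (a :: L) 0 = a := by simp [coef]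
  have h1 : coef (a :: L) q = a := by
    have := hper 0
    rwa [zero_add, h0] at this
  unfold coef at h1
  rw [Nat.mod_eq_of_lt hlt, List.getD_eq_getElem _ _ hlt] at h1
  obtain ⟨r, rfl⟩ : ∃ r, q = r + 1 := ⟨q - 1, by omega⟩
  rw [List.getElem_cons_succ] at h1
  exact h _ (List.getElem_mem _) h1

theorem orb_solution (α : ℕ → ℝ) (s : ℝ × ℝ) (hs : 0 < s.1 ∧ 0 < s.2) :
    IsPositiveSolution α (fun n => (orb α s n).1) := by
  refine ⟨hs.1, ?_, fun n => rfl⟩
  exact hs.2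

/-- Criterion for a list to give a bad period. -/
theorem bad_of (a : ℝ) (L : List ℝ) (p : ℕ) (hp : (a :: L).length = p) (ha : 0 ≤ a)
    (hL : ∀ b ∈ L, 0 ≤ b) (hne : ∀ b ∈ L, b ≠ a) (s : ℝ × ℝ) (hs : 0 < s.1 ∧ 0 < s.2)
    (hun : ∀ M : ℝ, ∃ n, M < (orb (coef (a :: L)) s n).1) : ¬ Good p := by
  intro hg
  have hnn : ∀ b ∈ a :: L, 0 ≤ b := by
    intro b hb
    rcases List.mem_cons.mp hb with rfl | hb
    · exact ha
    · exact hL b hb
  have hl := coef_least a L hne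
  rw [hp] at hl
  obtain ⟨M, hM⟩ := hg (coef (a :: L)) (coef_nonneg _ hnn) hl _ (orb_solution _ s hs)
  obtain ⟨n, hn⟩ := hun M
  exact absurd (hM n) (not_le.mpr hn)

/-- If a region is mapped to itself by the `m`-fold period map and some positive quantity `g`
doubles there, while `g` is bounded by a multiple of a term of the solution, then it is
unbounded. -/
theorem unbounded_of (α0 : ℝ) (L : List ℝ) (s : ℝ × ℝ) (m : ℕ) (Q : ℝ × ℝ → Prop) (hQ : Q s)
    (c : ℝ) (hc : 1 < c) (g : ℝ × ℝ → ℝ) (hg0 : 0 < g s)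
    (hstep : ∀ t, Q t → Q ((run (α0 :: L))^[m] t) ∧ c * g t ≤ g ((run (α0 :: L))^[m] t))
    (e : ℕ) (hgb : ∀ n t, coef (α0 :: L) n = α0 → Q (orb (coef (α0 :: L)) s n) →
      t = orb (coef (α0 :: L)) s n → g t ≤ (orb (coef (α0 :: L)) s (n + e)).1) :
    ∀ M : ℝ, ∃ n, M < (orb (coef (α0 :: L)) s n).1 := by
  intro M
  have key : ∀ j, Q (orb (coef (α0 :: L)) s ((α0 :: L).length * (m * j))) ∧
      c ^ j * g s ≤ g (orb (coef (α0 :: L)) s ((α0 :: L).length * (m * j))) := by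
    intro j
    induction j with
    | zero =>
      simp only [mul_zero, pow_zero, one_mul]
      exact ⟨hQ, le_refl _⟩
    | succ j ih =>
      obtain ⟨h1, h2⟩ := ih
      rw [orb_iter]
      obtain ⟨h3, h4⟩ := hstep _ h1
      refine ⟨h3, ?_⟩
      calc c ^ (j + 1) * g s = c * (c ^ j * g s) := by ring
        _ ≤ c * g (orb (coef (α0 :: L)) s ((α0 :: L).length * (m * j))) :=
            mul_le_mul_of_nonneg_left h2 (by linarith)
        _ ≤ _ := h4
  obtain ⟨j, hj⟩ := pow_unbounded_of_one_lt (M / g s) hc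
  obtain ⟨h1, h2⟩ := key j
  refine ⟨(α0 :: L).length * (m * j) + e, ?_⟩
  have h3 := hgb ((α0 :: L).length * (m * j)) _ (by
    have := coef_mul_add (α0 :: L) (m * j) 0 (by simp)
    simpa using this) h1 rfl
  rw [div_lt_iff₀ hg0] at hj
  linarith

/-! ### Two inequality lemmas -/

theorem key4 (p q q1 q2 q3 q4 q5 q6 q7 q8 : ℝ) (hp : 100 ≤ p) (hq : 2 ≤ q)
    (h1 : 0 < q1) (h2 : 0 < q2) (h3 : 0 < q3) (h4 : 0 < q4) (h5 : 0 < q5) (h6 : 0 < q6)
    (h7 : 0 < q7) (h8 : 0 < q8)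
    (e1 : q1 * (p * q ^ 2) = 4 + q) (e2 : q2 * (q * q1 ^ 2) = 1 / 4 + q1)
    (e3 : q3 * (q1 * q2 ^ 2) = 4 + q2) (e4 : q4 * (q2 * q3 ^ 2) = 1 / 4 + q3)
    (e5 : q5 * (q3 * q4 ^ 2) = 4 + q4) (e6 : q6 * (q4 * q5 ^ 2) = 1 / 4 + q5)
    (e7 : q7 * (q5 * q6 ^ 2) = 4 + q6) (e8 : q8 * (q6 * q7 ^ 2) = 1 / 4 + q7) :
    p ≤ q7 ∧ 2 * q ≤ q8 := by
  have hp0 : 0 < p := by linarith
  have hq0 : 0 < q := by linarith
  -- first quantities
  have a1 : q1 * q * p ≤ 3 := by
    have : (q1 * q * p) * q = 4 + q := by rw [← e1]; ring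
    by_contra hcon
    push Not at hcon
    have := mul_lt_mul_of_pos_right hcon hq0
    linarith
  have b1 : q1 * q ≤ 3 / 100 := by
    have : q1 * q * 100 ≤ q1 * q * p := mul_le_mul_of_nonneg_left hp (by positivity)
    linarith
  have c1 : q1 ≤ 3 / 200 := by
    have : q1 * 2 ≤ q1 * q := mul_le_mul_of_nonneg_left hq h1.le
    linarith
  have b2 : 400 ≤ q2 := by
    have hx : q * q1 ^ 2 ≤ 9 / 20000 := by
      have : (q1 * q) * q1 ≤ (3 / 100) * (3 / 200) := mul_le_mul b1 c1 h1.le (by norm_num)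
      have h' : q * q1 ^ 2 = (q1 * q) * q1 := by ring
      rw [h']
      linarith
    by_contra hcon
    push Not at hcon
    have : q2 * (q * q1 ^ 2) ≤ 400 * (9 / 20000) :=
      mul_le_mul hcon.le hx (by positivity) (by norm_num)
    linarith
  obtain ⟨E2, hE2⟩ : ∃ E2, E2 = 1 + 4 / q2 := ⟨_, rfl⟩
  have E2l : 1 ≤ E2 := by rw [hE2]; have : 0 < 4 / q2 := by positivity
                          linarith
  have E2u : E2 ≤ 101 / 100 := by
    rw [hE2]
    have : 4 / q2 ≤ 1 / 100 := by rw [div_le_div_iff₀ h2 (by norm_num)]; linarith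
    linarith
  have e3' : q3 * (q1 * q2) = E2 := by
    rw [hE2]; field_simp; linarith [e3]
  have f3 : q3 * (1 / 4 + q1) = E2 * (q * q1) := by
    rw [← e2, ← e3']; ring
  have b3 : q3 ≤ 1 / 8 := by
    have hx : E2 * (q * q1) ≤ (101 / 100) * (3 / 100) :=
      mul_le_mul E2u (by linarith [b1, mul_comm q1 q]) (by positivity) (by norm_num)
    have hy : q3 * (1 / 4) ≤ q3 * (1 / 4 + q1) := mul_le_mul_of_nonneg_left (by linarith) h3.le
    linarith
  have f4 : q4 * q3 * E2 = q1 * (1 / 4 + q3) := by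
    rw [← e4, ← e3']; ring
  have g4 : q4 * q * E2 ^ 2 = (1 / 4 + q3) * (1 / 4 + q1) := by
    have hx : q1 * (q4 * q * E2 ^ 2) = q1 * ((1 / 4 + q3) * (1 / 4 + q1)) := by
      calc q1 * (q4 * q * E2 ^ 2) = q4 * E2 * (E2 * (q * q1)) := by ring
        _ = q4 * E2 * (q3 * (1 / 4 + q1)) := by rw [f3]
        _ = (q4 * q3 * E2) * (1 / 4 + q1) := by ring
        _ = _ := by rw [f4]; ring
    exact mul_left_cancel₀ h1.ne' hx
  have f5 : q5 * q4 * (q1 * (1 / 4 + q3)) = (4 + q4) * E2 := by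
    rw [← f4, ← e5]; ring
  have hX : q1 * (1 / 4 + q3) ≤ (3 / 200) * (3 / 8) :=
    mul_le_mul c1 (by linarith) (by positivity) (by norm_num)
  have hX0 : 0 < q1 * (1 / 4 + q3) := by positivity
  have b5 : 100 ≤ q5 := by
    have hx : q4 ≤ q5 * q4 * (q1 * (1 / 4 + q3)) := by
      rw [f5]
      calc q4 ≤ 4 + q4 := by linarith
        _ = (4 + q4) * 1 := by ring
        _ ≤ (4 + q4) * E2 := mul_le_mul_of_nonneg_left E2l (by linarith)
    have hy : 1 ≤ q5 * (q1 * (1 / 4 + q3)) := by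
      have : q4 * 1 ≤ q4 * (q5 * (q1 * (1 / 4 + q3))) := by linarith
      exact le_of_mul_le_mul_left this h4
    by_contra hcon
    push Not at hcon
    have : q5 * (q1 * (1 / 4 + q3)) ≤ 100 * ((3 / 200) * (3 / 8)) :=
      mul_le_mul hcon.le hX hX0.le (by norm_num)
    linarith
  obtain ⟨E5, hE5⟩ : ∃ E5, E5 = 1 + 1 / (4 * q5) := ⟨_, rfl⟩
  have E5l : 1 ≤ E5 := by rw [hE5]; have : 0 < 1 / (4 * q5) := by positivity
                          linarith
  have E5u : E5 ≤ 101 / 100 := by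
    rw [hE5]
    have : 1 / (4 * q5) ≤ 1 / 100 := by
      rw [div_le_div_iff₀ (by positivity) (by norm_num)]; linarith
    linarith
  have f6 : q6 * (q4 * q5) = E5 := by
    rw [hE5]; field_simp; linarith [e6]
  have g6 : q6 * (4 + q4) * E2 = E5 * (q1 * (1 / 4 + q3)) := by
    rw [← f6, mul_assoc, ← f5]; ring
  have b6 : q6 ≤ 1 / 100 := by
    have hx : E5 * (q1 * (1 / 4 + q3)) ≤ (101 / 100) * ((3 / 200) * (3 / 8)) :=
      mul_le_mul E5u hX hX0.le (by norm_num)
    have hy : q6 * 4 ≤ q6 * (4 + q4) * E2 := by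
      have h46 : q6 * 4 ≤ q6 * (4 + q4) := mul_le_mul_of_nonneg_left (by linarith) h6.le
      have : q6 * (4 + q4) * 1 ≤ q6 * (4 + q4) * E2 :=
        mul_le_mul_of_nonneg_left E2l (by positivity)
      linarith
    linarith
  have f7 : q7 * q6 * E5 = (4 + q6) * q4 := by
    rw [← f6, ← e7]; ring
  have f8 : 1 ≤ q8 * (q6 * q7) := by
    have hx : q7 * (q8 * (q6 * q7)) = 1 / 4 + q7 := by rw [← e8]; ring
    have : q7 * 1 ≤ q7 * (q8 * (q6 * q7)) := by linarith
    exact le_of_mul_le_mul_left this h7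
  constructor
  · -- `p ≤ q7`
    have s1 : 16 * q4 * E2 ≤ q7 * E5 ^ 2 * (q1 * (1 / 4 + q3)) := by
      calc 16 * q4 * E2 = 4 * q4 * 4 * E2 := by ring
        _ ≤ (4 + q6) * q4 * (4 + q4) * E2 := by
            have : 4 * q4 * 4 ≤ (4 + q6) * q4 * (4 + q4) := by
              have t1 : 4 * q4 ≤ (4 + q6) * q4 := mul_le_mul_of_nonneg_right (by linarith) h4.le
              exact mul_le_mul t1 (by linarith) (by norm_num) (by positivity)
            exact mul_le_mul_of_nonneg_right this (by linarith)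
        _ = (q7 * q6 * E5) * (4 + q4) * E2 := by rw [f7]
        _ = q7 * E5 * (q6 * (4 + q4) * E2) := by ring
        _ = q7 * E5 * (E5 * (q1 * (1 / 4 + q3))) := by rw [g6]
        _ = _ := by ring
    have s2 : 16 * (1 / 4 + q1) ≤ q7 * E5 ^ 2 * E2 * (q * q1) := by
      have hx : (1 / 4 + q3) * (16 * (1 / 4 + q1)) ≤
          (1 / 4 + q3) * (q7 * E5 ^ 2 * E2 * (q * q1)) := by
        calc (1 / 4 + q3) * (16 * (1 / 4 + q1)) = 16 * ((1 / 4 + q3) * (1 / 4 + q1)) := by ring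
          _ = 16 * (q4 * q * E2 ^ 2) := by rw [g4]
          _ = (16 * q4 * E2) * (q * E2) := by ring
          _ ≤ (q7 * E5 ^ 2 * (q1 * (1 / 4 + q3))) * (q * E2) :=
              mul_le_mul_of_nonneg_right s1 (by positivity)
          _ = _ := by ring
      exact le_of_mul_le_mul_left hx (by positivity)
    have s3 : 4 * p ≤ q7 * (E5 ^ 2 * E2) * 3 := by
      calc 4 * p ≤ 16 * (1 / 4 + q1) * p := mul_le_mul_of_nonneg_right (by linarith) hp0.le
        _ ≤ (q7 * E5 ^ 2 * E2 * (q * q1)) * p := mul_le_mul_of_nonneg_right s2 hp0.le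
        _ = q7 * (E5 ^ 2 * E2) * (q1 * q * p) := by ring
        _ ≤ q7 * (E5 ^ 2 * E2) * 3 := mul_le_mul_of_nonneg_left a1 (by positivity)
    have s4 : E5 ^ 2 * E2 ≤ 4 / 3 := by
      have t1 : E5 ^ 2 ≤ (101 / 100) ^ 2 := pow_le_pow_left₀ (by linarith) E5u 2
      have t2 : E5 ^ 2 * E2 ≤ (101 / 100) ^ 2 * (101 / 100) :=
        mul_le_mul t1 E2u (by linarith) (by norm_num)
      norm_num at t2 ⊢
      linarith
    have s5 : q7 * (E5 ^ 2 * E2) ≤ q7 * (4 / 3) := mul_le_mul_of_nonneg_left s4 h7.le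
    linarith
  · -- `2 q ≤ q8`
    have s1 : 1 ≤ q8 * ((4 + q6) * q4) := by
      rw [← f7]
      have : q8 * (q6 * q7) * 1 ≤ q8 * (q6 * q7) * E5 :=
        mul_le_mul_of_nonneg_left E5l (by positivity)
      calc (1 : ℝ) ≤ q8 * (q6 * q7) * 1 := by linarith
        _ ≤ q8 * (q6 * q7) * E5 := this
        _ = _ := by ring
    have s2 : q4 * q ≤ (3 / 8) * (1 / 4 + 3 / 200) := by
      calc q4 * q = q4 * q * 1 := by ring
        _ ≤ q4 * q * E2 ^ 2 := mul_le_mul_of_nonneg_left (one_le_pow₀ E2l) (by positivity)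
        _ = (1 / 4 + q3) * (1 / 4 + q1) := g4
        _ ≤ _ := mul_le_mul (by linarith) (by linarith) (by positivity) (by norm_num)
    have s3 : q ≤ q8 * ((4 + q6) * (q4 * q)) := by
      have : 1 * q ≤ q8 * ((4 + q6) * q4) * q := mul_le_mul_of_nonneg_right s1 hq0.le
      linarith [this, (by ring : q8 * ((4 + q6) * q4) * q = q8 * ((4 + q6) * (q4 * q)))]
    have s4 : (4 + q6) * (q4 * q) ≤ (4 + 1 / 100) * ((3 / 8) * (1 / 4 + 3 / 200)) :=
      mul_le_mul (by linarith) s2 (by positivity) (by norm_num)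
    have s5 : q8 * ((4 + q6) * (q4 * q)) ≤ q8 * (1 / 2) := by
      apply mul_le_mul_of_nonneg_left _ h8.le
      refine s4.trans ?_
      norm_num
    linarith

theorem key7 (u v u1 v1 u2 v2 u3 v3 u4 v4 t1 t2 t3 t4 : ℝ) (hu : 0 < u) (hu' : u ≤ 1 / 4)
    (hv : 0 < v) (hv' : v ≤ u / 100)
    (p1 : 0 < u1) (p2 : 0 < u2) (p3 : 0 < u3) (r1 : 0 < v1) (r2 : 0 < v2)
    (r3 : 0 < v3) (r4 : 0 < v4) (_ : 0 < t1) (q2 : 0 < t2) (q3 : 0 < t3) (q4 : 0 < t4)
    (e1 : t1 * (3 * u * v + 2 + v) = 2 + v) (f1 : u1 = v * t1) (g1 : v1 * u = (2 + v) * t1)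
    (e2 : t2 * (3 * u1 * v1 + 2 + v1) = 2 + v1) (f2 : u2 = v1 * t2) (g2 : v2 * u1 = (2 + v1) * t2)
    (e3 : t3 * (3 * u2 * v2 + 2 + v2) = 2 + v2) (f3 : u3 = v2 * t3) (g3 : v3 * u2 = (2 + v2) * t3)
    (e4 : t4 * (3 * u3 * v3 + 2 + v3) = 2 + v3) (f4 : u4 = v3 * t4)
    (g4 : v4 * u3 = (2 + v3) * t4) :
    u4 ≤ u / 2 ∧ v4 ≤ u4 / 100 := by
  have v400 : v ≤ 1 / 400 := by linarith
  have le1 : t1 ≤ 1 := by
    by_contra h
    push Not at h
    have h' : 1 * (3 * u * v + 2 + v) < t1 * (3 * u * v + 2 + v) :=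
      mul_lt_mul_of_pos_right h (by positivity)
    have : 0 < 3 * u * v := by positivity
    linarith
  have le2 : t2 ≤ 1 := by
    by_contra h
    push Not at h
    have h' : 1 * (3 * u1 * v1 + 2 + v1) < t2 * (3 * u1 * v1 + 2 + v1) :=
      mul_lt_mul_of_pos_right h (by positivity)
    have : 0 < 3 * u1 * v1 := by positivity
    linarith
  have ge1 : 99 / 100 ≤ t1 := by
    by_contra h
    push Not at h
    have h' : t1 * (3 * u * v + 2 + v) < 99 / 100 * (3 * u * v + 2 + v) :=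
      mul_lt_mul_of_pos_right h (by positivity)
    have huv : u * v ≤ 1 / 4 * (1 / 400) := mul_le_mul hu' v400 hv.le (by norm_num)
    have : 3 * u * v = 3 * (u * v) := by ring
    linarith
  have u1v : u1 ≤ v := by
    rw [f1]
    calc v * t1 ≤ v * 1 := mul_le_mul_of_nonneg_left le1 hv.le
      _ = v := mul_one v
  have ge2 : 99 / 100 ≤ t2 := by
    by_contra h
    push Not at h
    have h' : t2 * (3 * u1 * v1 + 2 + v1) < 99 / 100 * (3 * u1 * v1 + 2 + v1) :=
      mul_lt_mul_of_pos_right h (by positivity)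
    have huv : u1 * v1 ≤ 1 / 400 * v1 := mul_le_mul_of_nonneg_right (by linarith) r1.le
    have : 3 * u1 * v1 = 3 * (u1 * v1) := by ring
    linarith
  have v1u : 198 / 100 ≤ v1 * u := by
    rw [g1]
    calc (198 / 100 : ℝ) = 2 * (99 / 100) := by norm_num
      _ ≤ (2 + v) * t1 := mul_le_mul (by linarith) ge1 (by norm_num) (by linarith)
  have v1u' : v1 * u ≤ 2 + v := by
    rw [g1]
    calc (2 + v) * t1 ≤ (2 + v) * 1 := mul_le_mul_of_nonneg_left le1 (by linarith)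
      _ = 2 + v := mul_one _
  have t3u2 : 1 ≤ t3 * (3 * u2 + 1) := by
    have h : (2 + v2) * 1 ≤ (2 + v2) * (t3 * (3 * u2 + 1)) := by
      calc (2 + v2) * 1 = t3 * (3 * u2 * v2 + 2 + v2) := by rw [e3]; ring
        _ ≤ t3 * ((3 * u2 + 1) * (2 + v2)) := by
            apply mul_le_mul_of_nonneg_left _ q3.le
            have : 0 < u2 := p2
            linarith [(by ring : (3 * u2 + 1) * (2 + v2) = 3 * u2 * v2 + 6 * u2 + 2 + v2)]
        _ = _ := by ring
    exact le_of_mul_le_mul_left h (by linarith)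
  have u2v1 : u2 ≤ v1 := by
    rw [f2]
    calc v1 * t2 ≤ v1 * 1 := mul_le_mul_of_nonneg_left le2 r1.le
      _ = v1 := mul_one v1
  have u3v : 33 / 100 ≤ u3 * v := by
    have h1 : v2 ≤ u3 * (3 * v1 + 1) := by
      calc v2 = v2 * 1 := (mul_one v2).symm
        _ ≤ v2 * (t3 * (3 * u2 + 1)) := mul_le_mul_of_nonneg_left t3u2 r2.le
        _ = u3 * (3 * u2 + 1) := by rw [f3]; ring
        _ ≤ u3 * (3 * v1 + 1) := mul_le_mul_of_nonneg_left (by linarith) p3.le
    have h2 : (2 + v1) * t2 ≤ u3 * (3 * v1 + 1) * u1 := by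
      rw [← g2]
      exact mul_le_mul_of_nonneg_right h1 p1.le
    have h3 : (2 + v1) * (99 / 100) ≤ (2 + v1) * (u3 * 3 * u1) := by
      calc (2 + v1) * (99 / 100) ≤ (2 + v1) * t2 := mul_le_mul_of_nonneg_left ge2 (by linarith)
        _ ≤ u3 * (3 * v1 + 1) * u1 := h2
        _ = (3 * v1 + 1) * (u3 * u1) := by ring
        _ ≤ (3 * (2 + v1)) * (u3 * u1) :=
            mul_le_mul_of_nonneg_right (by linarith) (by positivity)
        _ = _ := by ring
    have h4 : 99 / 100 ≤ u3 * 3 * u1 := le_of_mul_le_mul_left h3 (by linarith)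
    have h5 : u3 * 3 * u1 ≤ u3 * 3 * v := mul_le_mul_of_nonneg_left u1v (by positivity)
    linarith
  have v3g : 15 ≤ v3 := by
    have h1 : v2 ≤ v3 * u2 * (3 * v1 + 1) := by
      calc v2 ≤ (2 + v2) * 1 := by linarith
        _ ≤ (2 + v2) * (t3 * (3 * u2 + 1)) := mul_le_mul_of_nonneg_left t3u2 (by linarith)
        _ = v3 * u2 * (3 * u2 + 1) := by rw [g3]; ring
        _ ≤ v3 * u2 * (3 * v1 + 1) := mul_le_mul_of_nonneg_left (by linarith) (by positivity)
    have h2 : v1 * t2 * 1 ≤ v1 * t2 * (v3 * (3 * v1 + 1) * u1) := by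
      calc v1 * t2 * 1 ≤ (2 + v1) * t2 := by
            have : v1 * t2 ≤ (2 + v1) * t2 := mul_le_mul_of_nonneg_right (by linarith) q2.le
            linarith
        _ = v2 * u1 := g2.symm
        _ ≤ v3 * u2 * (3 * v1 + 1) * u1 := mul_le_mul_of_nonneg_right h1 p1.le
        _ = _ := by rw [f2]; ring
    have h3 : 1 ≤ v3 * (3 * v1 + 1) * u1 := le_of_mul_le_mul_left h2 (by positivity)
    have h4 : 1 ≤ v3 * (3 * v1 + 1) * (u / 100) :=
      h3.trans (mul_le_mul_of_nonneg_left (u1v.trans hv') (by positivity))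
    have h5 : v3 * (3 * v1 + 1) * (u / 100) = v3 * (3 * (v1 * u) + u) / 100 := by ring
    rw [h5] at h4
    have h6 : v3 * (3 * (v1 * u) + u) ≤ v3 * (3 * (2 + 1 / 400) + 1 / 4) :=
      mul_le_mul_of_nonneg_left (by linarith) r3.le
    linarith
  have v2g : 1000 ≤ v2 := by
    have h1 : 99 / 100 * 7 ≤ v2 * u1 := by
      rw [g2]
      have hv1 : 7 ≤ v1 := by
        by_contra h
        push Not at h
        have : v1 * u ≤ 7 * (1 / 4) := mul_le_mul h.le hu' hu.le (by norm_num)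
        linarith
      calc (99 / 100 * 7 : ℝ) = 7 * (99 / 100) := by norm_num
        _ ≤ (2 + v1) * t2 := mul_le_mul (by linarith) ge2 (by norm_num) (by linarith)
    have h2 : v2 * u1 ≤ v2 * (1 / 400) := mul_le_mul_of_nonneg_left (u1v.trans v400) r2.le
    linarith
  have u2u : 196 / 100 ≤ u2 * u := by
    rw [f2]
    calc (196 / 100 : ℝ) ≤ (198 / 100) * (99 / 100) := by norm_num
      _ ≤ (v1 * u) * t2 := mul_le_mul v1u ge2 (by norm_num) (by positivity)
      _ = v1 * t2 * u := by ring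
  have u3inv : 1 / u3 ≤ v * (100 / 33) := by
    rw [div_le_iff₀ p3]
    linarith [(by ring : v * (100 / 33) * u3 = (u3 * v) * (100 / 33))]
  have u2inv : 1 / u2 ≤ u * (100 / 196) := by
    rw [div_le_iff₀ p2]
    linarith [(by ring : u * (100 / 196) * u2 = (u2 * u) * (100 / 196))]
  have p4 : 0 < u4 := by rw [f4]; positivity
  constructor
  · have h1 : 3 * u3 * u4 ≤ 2 + v3 := by
      calc 3 * u3 * u4 = t4 * (3 * u3 * v3) := by rw [f4]; ring
        _ ≤ t4 * (3 * u3 * v3 + 2 + v3) := mul_le_mul_of_nonneg_left (by linarith) q4.le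
        _ = 2 + v3 := e4
    have h2 : v3 * u2 ≤ (1002 / 1000) * u3 := by
      rw [g3, f3]
      have : (2 + v2) ≤ 1002 / 1000 * v2 := by linarith
      calc (2 + v2) * t3 ≤ (1002 / 1000 * v2) * t3 := mul_le_mul_of_nonneg_right this q3.le
        _ = _ := by ring
    have h3 : v3 ≤ (1002 / 1000) * u3 * (1 / u2) := by
      rw [mul_one_div, le_div_iff₀ p2]
      exact h2
    have h4 : u4 ≤ 2 / 3 * (1 / u3) + (334 / 1000) * (1 / u2) := by
      have h5 : u4 = (3 * u3 * u4) * (1 / (3 * u3)) := by field_simp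
      rw [h5]
      calc (3 * u3 * u4) * (1 / (3 * u3)) ≤ (2 + (1002 / 1000) * u3 * (1 / u2)) * (1 / (3 * u3)) :=
            mul_le_mul_of_nonneg_right (by linarith) (by positivity)
        _ = _ := by field_simp; ring
    linarith
  · have h1 : v4 * u3 ≤ (17 / 15) * u4 := by
      rw [g4, f4]
      have : 2 + v3 ≤ 17 / 15 * v3 := by linarith
      calc (2 + v3) * t4 ≤ (17 / 15 * v3) * t4 := mul_le_mul_of_nonneg_right this q4.le
        _ = _ := by ring
    have h2 : v4 ≤ (17 / 15) * u4 * (1 / u3) := by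
      rw [mul_one_div, le_div_iff₀ p3]
      exact h1
    have h3 : (17 / 15) * u4 * (1 / u3) ≤ (17 / 15) * u4 * ((1 / 400) * (100 / 33)) :=
      mul_le_mul_of_nonneg_left (u3inv.trans (by linarith)) (by positivity)
    linarith

/-! ### The six families of bad periods -/

theorem run_pad (a : ℝ) (L : List ℝ) (k : ℕ) (ha : 0 ≤ a) (hL : ∀ b ∈ L, 0 ≤ b)
    {s : ℝ × ℝ} (hs : 0 < s.1 ∧ 0 < s.2) :
    run (a :: (L ++ List.replicate (6 * k) 0)) s = run (a :: L) s := by
  rw [← List.cons_append, run_append, run_zeros]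
  refine run_pos _ ?_ hs
  intro b hb
  rcases List.mem_cons.mp hb with rfl | hb
  · exact ha
  · exact hL b hb

theorem mem_pad {L : List ℝ} {k : ℕ} {b : ℝ} (hb : b ∈ L ++ List.replicate (6 * k) 0) :
    b ∈ L ∨ b = 0 := by
  rcases List.mem_append.mp hb with h | h
  · exact Or.inl h
  · exact Or.inr (List.eq_of_mem_replicate h)

/-- Packaging: a list whose (unpadded) period map has an expanding region gives the bad periods
`r + 6 k`. -/
theorem bad_family (a : ℝ) (L : List ℝ) (k : ℕ) (ha : 0 < a) (hL : ∀ b ∈ L, 0 ≤ b)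
    (hne : ∀ b ∈ L, b ≠ a) (s : ℝ × ℝ) (m : ℕ) (Q : ℝ × ℝ → Prop)
    (hQpos : ∀ t, Q t → 0 < t.1 ∧ 0 < t.2) (hQ : Q s)
    (c : ℝ) (hc : 1 < c) (g : ℝ × ℝ → ℝ) (hg0 : 0 < g s)
    (hstep : ∀ t, Q t → Q ((run (a :: L))^[m] t) ∧ c * g t ≤ g ((run (a :: L))^[m] t))
    (e : ℕ) (hgb : ∀ (α : ℕ → ℝ) n t, α n = a → Q (orb α s n) →
      t = orb α s n → g t ≤ (orb α s (n + e)).1) :
    ¬ Good ((a :: L).length + 6 * k) := by
  have hLp : ∀ b ∈ L ++ List.replicate (6 * k) (0 : ℝ), 0 ≤ b := by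
    intro b hb
    rcases mem_pad hb with h | h
    · exact hL b h
    · rw [h]
  refine bad_of a (L ++ List.replicate (6 * k) 0) _ (by simp; ring) ha.le hLp ?_ s
    (hQpos s hQ) ?_
  · intro b hb
    rcases mem_pad hb with h | h
    · exact hne b h
    · rw [h]; exact ha.ne
  · refine unbounded_of a _ s m Q hQ c hc g hg0 ?_ e (fun n t h => hgb _ n t h)
    intro t ht
    have key : ∀ i (s : ℝ × ℝ), 0 < s.1 ∧ 0 < s.2 →
        (run (a :: (L ++ List.replicate (6 * k) 0)))^[i] s = (run (a :: L))^[i] s ∧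
        0 < ((run (a :: L))^[i] s).1 ∧ 0 < ((run (a :: L))^[i] s).2 := by
      intro i
      induction i with
      | zero => intro s hs; exact ⟨rfl, hs⟩
      | succ i ih =>
        intro s hs
        obtain ⟨h1, h2⟩ := ih s hs
        rw [Function.iterate_succ_apply', Function.iterate_succ_apply', h1,
          run_pad a L k ha.le hL h2]
        refine ⟨rfl, run_pos _ ?_ h2⟩
        intro b hb
        rcases List.mem_cons.mp hb with rfl | hb
        · exact ha.le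
        · exact hL b hb
    rw [(key m t (hQpos t ht)).1]
    exact hstep t ht

/-- `x_{n+1} = (α_n + x_n) / x_{n-1} ≥ 1 / x_{n-1}` when `α_n ≥ 1`. -/
theorem inv_le_orb (α : ℕ → ℝ) (s : ℝ × ℝ) (n : ℕ) (h : 1 ≤ α n)
    (hp : 0 < (orb α s n).1 ∧ 0 < (orb α s n).2) :
    1 / (orb α s n).1 ≤ (orb α s (n + 2)).1 := by
  show 1 / (orb α s n).1 ≤ (α n + (orb α s n).2) / (orb α s n).1
  exact div_le_div_of_nonneg_right (by linarith [hp.2]) hp.1.le

theorem bad3 (k : ℕ) : ¬ Good (3 + 6 * k) := by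
  have hrun : ∀ u v : ℝ, 0 < u → 0 < v → run [2, 0, 0] (u, v) = ((2 + v) / (u * v), 1 / v) := by
    intro u v hu hv
    simp only [run_cons, run_nil, step, zero_add]
    ext
    · show (2 + v) / u / v = (2 + v) / (u * v)
      field_simp
    · show (2 + v) / u / v / ((2 + v) / u) = 1 / v
      field_simp
  refine bad_family 2 [0, 0] k (by norm_num) (by simp) (by simp) (1, 2) 2
    (fun t => 0 < t.1 ∧ t.2 = 2) (fun t ht => ⟨ht.1, by rw [ht.2]; norm_num⟩) (by norm_num)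
    (5 / 2) (by norm_num) Prod.fst (by norm_num) ?_ 0 (fun α n t _ _ h => by rw [h]; rfl)
  rintro ⟨u, v⟩ ⟨hu, hv⟩
  simp only at hu hv
  subst hv
  have h2 : (run [2, 0, 0])^[2] (u, 2) = (5 / 2 * u, 2) := by
    show run [2, 0, 0] (run [2, 0, 0] (u, 2)) = _
    rw [hrun u 2 hu (by norm_num), hrun _ _ (by positivity) (by norm_num)]
    ext
    · show (2 + 1 / 2) / ((2 + 2) / (u * 2) * (1 / 2)) = 5 / 2 * u
      field_simp
      norm_num
    · norm_num
  rw [h2]
  exact ⟨⟨by positivity, rfl⟩, le_refl _⟩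

theorem run_one5 {s : ℝ × ℝ} (hs : 0 < s.1 ∧ 0 < s.2) : run [1, 1, 1, 1, 1] s = s := by
  obtain ⟨u, v⟩ := s
  obtain ⟨hu, hv⟩ := hs
  simp only at hu hv
  simp only [run_cons, run_nil, step]
  have e1 : (1 + (1 + v) / u) / v = (u + v + 1) / (u * v) := by field_simp; ring
  have e2 : (1 + (u + v + 1) / (u * v)) / ((1 + v) / u) = (1 + u) / v := by
    field_simp; ring
  have e3 : (1 + (1 + u) / v) / ((u + v + 1) / (u * v)) = u := by
    have : u + v + 1 ≠ 0 := by positivity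
    field_simp; ring
  have e4 : (1 + u) / ((1 + u) / v) = v := by
    have : 1 + u ≠ 0 := by positivity
    field_simp
  rw [e1, e2, e3, e4]

theorem bad8 (k : ℕ) : ¬ Good (8 + 6 * k) := by
  have hrun : ∀ u v : ℝ, 0 < u → 0 < v →
      run [2, 0, 0, 1, 1, 1, 1, 1] (u, v) = ((2 + v) / (u * v), 1 / v) := by
    intro u v hu hv
    have h1 : run [2, 0, 0] (u, v) = ((2 + v) / (u * v), 1 / v) := by
      simp only [run_cons, run_nil, step, zero_add]
      ext
      · show (2 + v) / u / v = (2 + v) / (u * v)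
        field_simp
      · show (2 + v) / u / v / ((2 + v) / u) = 1 / v
        field_simp
    have h2 : run [2, 0, 0, 1, 1, 1, 1, 1] (u, v) = run [1, 1, 1, 1, 1] (run [2, 0, 0] (u, v)) :=
      run_append [2, 0, 0] [1, 1, 1, 1, 1] (u, v)
    rw [h2, h1]
    exact run_one5 ⟨by positivity, by positivity⟩
  refine bad_family 2 [0, 0, 1, 1, 1, 1, 1] k (by norm_num) (by simp) (by norm_num) (1, 2) 2
    (fun t => 0 < t.1 ∧ t.2 = 2) (fun t ht => ⟨ht.1, by rw [ht.2]; norm_num⟩) (by norm_num)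
    (5 / 2) (by norm_num) Prod.fst (by norm_num) ?_ 0 (fun α n t _ _ h => by rw [h]; rfl)
  rintro ⟨u, v⟩ ⟨hu, hv⟩
  simp only at hu hv
  subst hv
  have h2 : (run [2, 0, 0, 1, 1, 1, 1, 1])^[2] (u, 2) = (5 / 2 * u, 2) := by
    show run [2, 0, 0, 1, 1, 1, 1, 1] (run [2, 0, 0, 1, 1, 1, 1, 1] (u, 2)) = _
    rw [hrun u 2 hu (by norm_num), hrun _ _ (by positivity) (by norm_num)]
    ext
    · show (2 + 1 / 2) / ((2 + 2) / (u * 2) * (1 / 2)) = 5 / 2 * u
      field_simp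
      norm_num
    · norm_num
  rw [h2]
  exact ⟨⟨by positivity, rfl⟩, le_refl _⟩

theorem bad5 (k : ℕ) : ¬ Good (5 + 6 * k) := by
  have hrun : ∀ u : ℝ, 0 < u → run [3, 1, 1, 1, 1] (u, 1) = (u / 2, 1) := by
    intro u hu
    simp only [run_cons, run_nil, step]
    have e1 : (1 + (3 + 1) / u) / 1 = (u + 4) / u := by field_simp; ring
    have e2 : (1 + (u + 4) / u) / ((3 + 1) / u) = (u + 2) / 2 := by field_simp; ring
    have e3 : (1 + (u + 2) / 2) / ((u + 4) / u) = u / 2 := by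
      have : u + 4 ≠ 0 := by positivity
      field_simp; ring
    have e4 : (1 + u / 2) / ((u + 2) / 2) = 1 := by
      have : u + 2 ≠ 0 := by positivity
      field_simp; ring
    rw [e1, e2, e3, e4]
  refine bad_family 3 [1, 1, 1, 1] k (by norm_num) (by simp) (by norm_num) (1, 1) 1
    (fun t => 0 < t.1 ∧ t.2 = 1) (fun t ht => ⟨ht.1, by rw [ht.2]; norm_num⟩) (by norm_num)
    2 (by norm_num) (fun t => 1 / t.1) (by norm_num) ?_ 2
    (fun α n t h hQ ht => by
      rw [ht]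
      exact inv_le_orb α _ n (by rw [h]; norm_num) ⟨hQ.1, by rw [hQ.2]; norm_num⟩)
  rintro ⟨u, v⟩ ⟨hu, hv⟩
  simp only at hu hv
  subst hv
  rw [Function.iterate_one, hrun u hu]
  refine ⟨⟨by positivity, rfl⟩, le_of_eq ?_⟩
  show 2 * (1 / u) = 1 / (u / 2)
  field_simp

theorem bad6 (k : ℕ) : ¬ Good (6 + 6 * k) := by
  have hrun : ∀ u : ℝ, 0 < u → run [3, 0, 0, 0, 0, 0] (u, 1) = (u / 4, 1) := by
    intro u hu
    simp only [run_cons, run_nil, step, zero_add]
    have e1 : (3 + 1) / u / 1 / ((3 + 1) / u) = 1 := by field_simp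
    have e2 : (1 : ℝ) / ((3 + 1) / u / 1) = u / 4 := by field_simp; norm_num
    have e3 : u / 4 / 1 = u / 4 := by ring
    have e4 : u / 4 / (u / 4) = 1 := by field_simp
    rw [e1, e2, e3, e4]
  refine bad_family 3 [0, 0, 0, 0, 0] k (by norm_num) (by simp) (by norm_num) (1, 1) 1
    (fun t => 0 < t.1 ∧ t.2 = 1) (fun t ht => ⟨ht.1, by rw [ht.2]; norm_num⟩) (by norm_num)
    4 (by norm_num) (fun t => 1 / t.1) (by norm_num) ?_ 2
    (fun α n t h hQ ht => by
      rw [ht]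
      exact inv_le_orb α _ n (by rw [h]; norm_num) ⟨hQ.1, by rw [hQ.2]; norm_num⟩)
  rintro ⟨u, v⟩ ⟨hu, hv⟩
  simp only at hu hv
  subst hv
  rw [Function.iterate_one, hrun u hu]
  refine ⟨⟨by positivity, rfl⟩, le_of_eq ?_⟩
  show 4 * (1 / u) = 1 / (u / 4)
  field_simp

theorem half4 (c p q : ℝ) (hc : 0 < c) (hp : 0 < p) (hq : 0 < q) :
    run [c, 0] (p * q, q) = (q * ((c + q) / (p * q ^ 2)), (c + q) / (p * q ^ 2)) := by
  simp only [run_cons, run_nil, step, zero_add]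
  ext
  · show (c + q) / (p * q) = q * ((c + q) / (p * q ^ 2))
    field_simp
  · show (c + q) / (p * q) / q = (c + q) / (p * q ^ 2)
    field_simp

theorem bad4 (k : ℕ) : ¬ Good (4 + 6 * k) := by
  refine bad_family 4 [0, 1 / 4, 0] k (by norm_num) (by norm_num) (by norm_num) (200, 2) 4
    (fun t => 100 * t.2 ≤ t.1 ∧ 2 ≤ t.2)
    (fun t ht => ⟨by linarith [ht.1, ht.2], by linarith [ht.2]⟩) (by norm_num)
    2 (by norm_num) Prod.snd (by norm_num) ?_ 1 (fun α n t _ _ h => by rw [h]; rfl)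
  rintro ⟨u, q⟩ ⟨hu, hq⟩
  simp only at hu hq
  have hq0 : 0 < q := by linarith
  obtain ⟨p, rfl⟩ : ∃ p, u = p * q := ⟨u / q, by field_simp⟩
  have hp : 100 ≤ p := le_of_mul_le_mul_right hu hq0
  have hp0 : 0 < p := by linarith
  have hsplit : ∀ s, run [4, 0, 1 / 4, 0] s = run [1 / 4, 0] (run [4, 0] s) := fun s =>
    run_append [4, 0] [1 / 4, 0] s
  have h4 : ∀ s, (run [4, 0, 1 / 4, 0])^[4] s = run [1 / 4, 0] (run [4, 0] (run [1 / 4, 0]
      (run [4, 0] (run [1 / 4, 0] (run [4, 0] (run [1 / 4, 0] (run [4, 0] s))))))) := by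
    intro s
    show run _ (run _ (run _ (run _ s))) = _
    simp only [hsplit]
  obtain ⟨q1, hq1⟩ : ∃ x, x = (4 + q) / (p * q ^ 2) := ⟨_, rfl⟩
  have p1 : 0 < q1 := by rw [hq1]; positivity
  obtain ⟨q2, hq2⟩ : ∃ x, x = (1 / 4 + q1) / (q * q1 ^ 2) := ⟨_, rfl⟩
  have p2 : 0 < q2 := by rw [hq2]; positivity
  obtain ⟨q3, hq3⟩ : ∃ x, x = (4 + q2) / (q1 * q2 ^ 2) := ⟨_, rfl⟩
  have p3 : 0 < q3 := by rw [hq3]; positivity
  obtain ⟨q4, hq4⟩ : ∃ x, x = (1 / 4 + q3) / (q2 * q3 ^ 2) := ⟨_, rfl⟩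
  have p4 : 0 < q4 := by rw [hq4]; positivity
  obtain ⟨q5, hq5⟩ : ∃ x, x = (4 + q4) / (q3 * q4 ^ 2) := ⟨_, rfl⟩
  have p5 : 0 < q5 := by rw [hq5]; positivity
  obtain ⟨q6, hq6⟩ : ∃ x, x = (1 / 4 + q5) / (q4 * q5 ^ 2) := ⟨_, rfl⟩
  have p6 : 0 < q6 := by rw [hq6]; positivity
  obtain ⟨q7, hq7⟩ : ∃ x, x = (4 + q6) / (q5 * q6 ^ 2) := ⟨_, rfl⟩
  have p7 : 0 < q7 := by rw [hq7]; positivity
  obtain ⟨q8, hq8⟩ : ∃ x, x = (1 / 4 + q7) / (q6 * q7 ^ 2) := ⟨_, rfl⟩
  have p8 : 0 < q8 := by rw [hq8]; positivity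
  obtain ⟨k1, k2⟩ := key4 p q q1 q2 q3 q4 q5 q6 q7 q8 hp hq p1 p2 p3 p4 p5 p6 p7 p8
    (by rw [hq1]; field_simp) (by rw [hq2]; field_simp) (by rw [hq3]; field_simp)
    (by rw [hq4]; field_simp) (by rw [hq5]; field_simp) (by rw [hq6]; field_simp)
    (by rw [hq7]; field_simp) (by rw [hq8]; field_simp)
  have hfin : (run [4, 0, 1 / 4, 0])^[4] (p * q, q) = (q7 * q8, q8) := by
    rw [h4, half4 4 p q (by norm_num) hp0 hq0, ← hq1,
      half4 (1 / 4) q q1 (by norm_num) hq0 p1, ← hq2, half4 4 q1 q2 (by norm_num) p1 p2, ← hq3,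
      half4 (1 / 4) q2 q3 (by norm_num) p2 p3, ← hq4, half4 4 q3 q4 (by norm_num) p3 p4, ← hq5,
      half4 (1 / 4) q4 q5 (by norm_num) p4 p5, ← hq6, half4 4 q5 q6 (by norm_num) p5 p6, ← hq7,
      half4 (1 / 4) q6 q7 (by norm_num) p6 p7, ← hq8]
  rw [hfin]
  refine ⟨⟨?_, ?_⟩, k2⟩
  · exact mul_le_mul_of_nonneg_right (hp.trans k1) p8.le
  · show 2 ≤ q8
    linarith

theorem seven (u v : ℝ) (hu : 0 < u) (hv : 0 < v) :
    run [2, 0, 3, 0, 0, 0, 0] (u, v) =
      (v * ((2 + v) / (3 * u * v + 2 + v)), (2 + v) * ((2 + v) / (3 * u * v + 2 + v)) / u) := by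
  have hD : 3 * u * v + 2 + v ≠ 0 := by positivity
  have h2 : 2 + v ≠ 0 := by positivity
  simp only [run_cons, run_nil, step, zero_add]
  have e1 : (3 + (2 + v) / u / v) / ((2 + v) / u) = (3 * u * v + 2 + v) / (v * (2 + v)) := by
    field_simp
    ring
  have e2 : (3 * u * v + 2 + v) / (v * (2 + v)) / ((2 + v) / u / v) =
      u * (3 * u * v + 2 + v) / (2 + v) ^ 2 := by
    field_simp
  have e3 : u * (3 * u * v + 2 + v) / (2 + v) ^ 2 / ((3 * u * v + 2 + v) / (v * (2 + v))) =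
      u * v / (2 + v) := by
    field_simp
  have e4 : u * v / (2 + v) / (u * (3 * u * v + 2 + v) / (2 + v) ^ 2) =
      v * ((2 + v) / (3 * u * v + 2 + v)) := by
    field_simp
  have e5 : v * ((2 + v) / (3 * u * v + 2 + v)) / (u * v / (2 + v)) =
      (2 + v) * ((2 + v) / (3 * u * v + 2 + v)) / u := by
    field_simp
  rw [e1, e2, e3, e4, e5]

theorem bad7 (k : ℕ) : ¬ Good (7 + 6 * k) := by
  refine bad_family 2 [0, 3, 0, 0, 0, 0] k (by norm_num) (by norm_num) (by norm_num)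
    (1 / 4, 1 / 400) 4
    (fun t => (0 < t.1 ∧ t.1 ≤ 1 / 4) ∧ 0 < t.2 ∧ t.2 ≤ t.1 / 100)
    (fun t ht => ⟨ht.1.1, ht.2.1⟩) (by norm_num)
    2 (by norm_num) (fun t => 1 / t.1) (by norm_num) ?_ 2
    (fun α n t h hQ ht => by
      rw [ht]
      exact inv_le_orb α _ n (by rw [h]; norm_num) ⟨hQ.1.1, hQ.2.1⟩)
  rintro ⟨u, v⟩ ⟨⟨hu, hu'⟩, hv, hv'⟩
  simp only at hu hu' hv hv'
  have step1 : ∀ u v : ℝ, 0 < u → 0 < v → ∃ u' v' t : ℝ, 0 < u' ∧ 0 < v' ∧ 0 < t ∧
      t * (3 * u * v + 2 + v) = 2 + v ∧ u' = v * t ∧ v' * u = (2 + v) * t ∧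
      run [2, 0, 3, 0, 0, 0, 0] (u, v) = (u', v') := by
    intro u v hu hv
    refine ⟨v * ((2 + v) / (3 * u * v + 2 + v)),
      (2 + v) * ((2 + v) / (3 * u * v + 2 + v)) / u, (2 + v) / (3 * u * v + 2 + v),
      by positivity, by positivity, by positivity, ?_, rfl, ?_, seven u v hu hv⟩
    · field_simp
    · field_simp
  obtain ⟨u1, v1, t1, p1, r1, s1, e1, f1, g1, k1⟩ := step1 u v hu hv
  obtain ⟨u2, v2, t2, p2, r2, s2, e2, f2, g2, k2⟩ := step1 u1 v1 p1 r1
  obtain ⟨u3, v3, t3, p3, r3, s3, e3, f3, g3, k3⟩ := step1 u2 v2 p2 r2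
  obtain ⟨u4, v4, t4, p4, r4, s4, e4, f4, g4, k4⟩ := step1 u3 v3 p3 r3
  obtain ⟨c1, c2⟩ := key7 u v u1 v1 u2 v2 u3 v3 u4 v4 t1 t2 t3 t4 hu hu' hv hv' p1 p2 p3 r1 r2
    r3 r4 s1 s2 s3 s4 e1 f1 g1 e2 f2 g2 e3 f3 g3 e4 f4 g4
  have hfin : (run [2, 0, 3, 0, 0, 0, 0])^[4] (u, v) = (u4, v4) := by
    show run _ (run _ (run _ (run _ (u, v)))) = _
    rw [k1, k2, k3, k4]
  rw [hfin]
  refine ⟨⟨⟨p4, by show u4 ≤ 1 / 4; linarith⟩, r4, c2⟩, ?_⟩
  show 2 * (1 / u) ≤ 1 / u4
  rw [mul_one_div, div_le_div_iff₀ hu p4]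
  linarith

/-! ### Period two -/

/-- The invariant of the two-periodic recursion: `c` is the next coefficient, `d` the other. -/
noncomputable def inv2 (c d x y : ℝ) : ℝ :=
  (c * x ^ 2 * y + d * x * y ^ 2 + d * x ^ 2 + c * y ^ 2 + (d ^ 2 + c) * x + (c ^ 2 + d) * y +
    c * d) / (x * y)

theorem inv2_step (c d x y : ℝ) (hx : 0 < x) (hy : 0 < y) (hc : 0 ≤ c) :
    inv2 d c y ((c + y) / x) = inv2 c d x y := by
  unfold inv2
  have h : c + y ≠ 0 := by positivity
  field_simp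
  ring

theorem good2 : Good 2 := by
  intro α hα hper x hx
  obtain ⟨h0, h1, hrec⟩ := hx
  have hpos : ∀ n, 0 < x n ∧ 0 < x (n + 1) := by
    intro n
    induction n with
    | zero => exact ⟨h0, h1⟩
    | succ n ih =>
      refine ⟨ih.2, ?_⟩
      rw [show n + 1 + 1 = n + 2 by ring, hrec n]
      exact div_pos (by linarith [hα n, ih.2]) ih.1
  have hne : α 0 ≠ α 1 := by
    intro heq
    have h : ∀ n, α (n + 1) = α n := by
      intro n
      induction n with
      | zero => exact heq.symm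
      | succ n ih =>
        rw [show n + 1 + 1 = n + 2 by ring, hper.2.1 n, ih]
    have := hper.2.2 1 one_pos h
    omega
  set W := inv2 (α 0) (α 1) (x 0) (x 1) with hW
  have hinv : ∀ n, inv2 (α n) (α (n + 1)) (x n) (x (n + 1)) = W := by
    intro n
    induction n with
    | zero => rfl
    | succ n ih =>
      rw [← ih, show n + 1 + 1 = n + 2 by ring, hper.2.1 n, hrec n]
      exact inv2_step _ _ _ _ (hpos n).1 (hpos n).2 (hα n)
  have hval : ∀ n, (α n = α 0 ∧ α (n + 1) = α 1) ∨ (α n = α 1 ∧ α (n + 1) = α 0) := by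
    intro n
    induction n with
    | zero => exact Or.inl ⟨rfl, rfl⟩
    | succ n ih =>
      rw [show n + 1 + 1 = n + 2 by ring, hper.2.1 n]
      rcases ih with h | h
      · exact Or.inr ⟨h.2, h.1⟩
      · exact Or.inl ⟨h.2, h.1⟩
  -- lower bounds for the invariant
  have hb : ∀ n, α n * x n ≤ W ∧ α (n + 1) * x (n + 1) ≤ W ∧
      α (n + 1) * (x n / x (n + 1)) ≤ W := by
    intro n
    obtain ⟨px, py⟩ := hpos n
    have hc := hα n
    have hd := hα (n + 1)
    rw [← hinv n]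
    unfold inv2
    generalize x n = X at *
    generalize x (n + 1) = Y at *
    generalize α n = c at *
    generalize α (n + 1) = d at *
    have t1 : 0 ≤ c * X ^ 2 * Y := by positivity
    have t2 : 0 ≤ d * X * Y ^ 2 := by positivity
    have t3 : 0 ≤ d * X ^ 2 := by positivity
    have t4 : 0 ≤ c * Y ^ 2 := by positivity
    have t5 : 0 ≤ (d ^ 2 + c) * X := by positivity
    have t6 : 0 ≤ (c ^ 2 + d) * Y := by positivity
    have t7 : 0 ≤ c * d := by positivity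
    refine ⟨?_, ?_, ?_⟩
    · rw [le_div_iff₀ (by positivity)]
      have : c * X * (X * Y) = c * X ^ 2 * Y := by ring
      rw [this]
      linarith
    · rw [le_div_iff₀ (by positivity)]
      have : d * Y * (X * Y) = d * X * Y ^ 2 := by ring
      rw [this]
      linarith
    · rw [le_div_iff₀ (by positivity)]
      have : d * (X / Y) * (X * Y) = d * X ^ 2 := by field_simp
      rw [this]
      linarith
  have hW0 : 0 ≤ W := le_trans (mul_nonneg (hα 0) h0.le) (hb 0).1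
  -- a lower bound for the larger coefficient
  obtain ⟨δ, hδ, hcase⟩ : ∃ δ : ℝ, 0 < δ ∧ ∀ n, δ ≤ α n ∨ δ ≤ α (n + 1) := by
    rcases lt_or_gt_of_ne hne with h | h
    · refine ⟨α 1, lt_of_le_of_lt (hα 0) h, fun n => ?_⟩
      rcases hval n with h' | h'
      · exact Or.inr h'.2.ge
      · exact Or.inl h'.1.ge
    · refine ⟨α 0, lt_of_le_of_lt (hα 1) h, fun n => ?_⟩
      rcases hval n with h' | h'
      · exact Or.inl h'.1.ge
      · exact Or.inr h'.2.ge
  refine ⟨W / δ + (W / δ) * (W / δ), fun n => ?_⟩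
  obtain ⟨px, py⟩ := hpos n
  obtain ⟨b1, b2, b3⟩ := hb n
  have hq : 0 ≤ W / δ := div_nonneg hW0 hδ.le
  rcases hcase n with h | h
  · have : x n ≤ W / δ := by
      rw [le_div_iff₀ hδ]
      calc x n * δ ≤ x n * α n := mul_le_mul_of_nonneg_left h px.le
        _ = α n * x n := mul_comm _ _
        _ ≤ W := b1
    nlinarith [mul_nonneg hq hq]
  · have c1 : x (n + 1) ≤ W / δ := by
      rw [le_div_iff₀ hδ]
      calc x (n + 1) * δ ≤ x (n + 1) * α (n + 1) := mul_le_mul_of_nonneg_left h py.le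
        _ = α (n + 1) * x (n + 1) := mul_comm _ _
        _ ≤ W := b2
    have c2 : x n / x (n + 1) ≤ W / δ := by
      rw [le_div_iff₀ hδ]
      calc x n / x (n + 1) * δ ≤ x n / x (n + 1) * α (n + 1) :=
            mul_le_mul_of_nonneg_left h (by positivity)
        _ = α (n + 1) * (x n / x (n + 1)) := mul_comm _ _
        _ ≤ W := b3
    have c3 : x n = x n / x (n + 1) * x (n + 1) := by field_simp
    have c4 : x n / x (n + 1) * x (n + 1) ≤ (W / δ) * (W / δ) :=
      mul_le_mul c2 c1 py.le hq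
    linarith

/-- **Main theorem.** The only good integer `p ≥ 2` is `p = 2`. -/
theorem result : ∀ p : ℕ, 2 ≤ p → (Good p ↔ p = 2) := by
  intro p hp
  constructor
  · intro hg
    by_contra hne
    obtain ⟨r, k, hr, rfl⟩ : ∃ r k, (3 ≤ r ∧ r ≤ 8) ∧ p = r + 6 * k :=
      ⟨(p - 3) % 6 + 3, (p - 3) / 6, by omega, by omega⟩
    obtain ⟨h3, h8⟩ := hr
    interval_cases r
    · exact bad3 k hg
    · exact bad4 k hg
    · exact bad5 k hg
    · exact bad6 k hg
    · exact bad7 k hg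
    · exact bad8 k hg
  · rintro rfl
    exact good2

end Pool.Agent.Results.MP_e65cda_an.LynessPeriodic
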